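import Pool.Agent.helper19.HF.SpecB
import Pool.Agent.helper9.IT.ORB
import Pool.Agent.helper24.IT.PRI
import Pool.Agent.helper17.AT.PRT

/-!
# MP_bf63dc_nt, project HF, row ORBK
-/

set_option autoImplicit false

namespace Pool.Agent.HF

open Finset Pool.Agent.AT Pool.Agent.IT

theorem ORBK_br_succ (a b m : ℕ) : br a b (m + 1) = b * br a b m + a ^ m := by
  unfold br
  rw [Finset.sum_range_succ, Finset.mul_sum]
  have h1 : m + 1 - 1 - m = 0 := by omega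
  rw [h1, pow_zero, mul_one]
  congr 1
  refine Finset.sum_congr rfl (fun i hi => ?_)
  rw [Finset.mem_range] at hi
  have h2 : m + 1 - 1 - i = (m - 1 - i) + 1 := by omega
  rw [h2, pow_succ]
  ring

theorem ORBK_br_zero (a b : ℕ) : br a b 0 = 0 := by
  unfold br
  simp

theorem ORBK_br_pos (a b m : ℕ) (ha : 1 ≤ a) (hm : 1 ≤ m) : 0 < br a b m := by
  obtain ⟨k, rfl⟩ : ∃ k, m = k + 1 := ⟨m - 1, by omega⟩
  rw [ORBK_br_succ]
  have : 0 < a ^ k := by positivity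
  omega

theorem ORBK_orb (a b E : ℕ) (c : ℤ) (h : ℕ → ℤ) (hh : ∀ i < E, (a : ℤ) * h (i + 1) = b * h i + c) (e : ℕ) :
    ∀ m : ℕ, e + m ≤ E → (a : ℤ) ^ m * h (e + m) = (b : ℤ) ^ m * h e + c * (br a b m : ℤ) := by
  intro m
  induction m with
  | zero =>
    intro _
    rw [ORBK_br_zero]
    simp
  | succ m ih =>
    intro hm
    have h1 := ih (by omega)
    have h2 := hh (e + m) (by omega)
    rw [ORBK_br_succ]
    push_cast
    have h3 : e + (m + 1) = e + m + 1 := by ring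
    rw [h3]
    calc (a : ℤ) ^ (m + 1) * h (e + m + 1) = (a : ℤ) ^ m * ((a : ℤ) * h (e + m + 1)) := by ring
      _ = (a : ℤ) ^ m * (b * h (e + m) + c) := by rw [h2]
      _ = b * ((a : ℤ) ^ m * h (e + m)) + (a : ℤ) ^ m * c := by ring
      _ = b * ((b : ℤ) ^ m * h e + c * (br a b m : ℤ)) + (a : ℤ) ^ m * c := by rw [h1]
      _ = (b : ℤ) ^ (m + 1) * h e + c * ((b : ℤ) * (br a b m : ℤ) + (a : ℤ) ^ m) := by ring

theorem ORBK_np (a b E : ℕ) (c : ℤ) (h : ℕ → ℤ) (ha : 1 ≤ a) (hb : 1 ≤ b) (hc : c ≠ 0)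
    (hh : ∀ i < E, (a : ℤ) * h (i + 1) = b * h i + c) (e e' : ℕ) (hee : e < e') (he' : e' ≤ E) :
    ((a ^ (E - e) * b ^ e : ℕ) : ℤ) * h e' - ((a ^ (E - e') * b ^ e' : ℕ) : ℤ) * h e ≠ 0 := by
  obtain ⟨m, rfl⟩ : ∃ m, e' = e + m := ⟨e' - e, by omega⟩
  have h1 := ORBK_orb a b E c h hh e m he'
  have h2 : a ^ (E - e) = a ^ (E - (e + m)) * a ^ m := by
    rw [← pow_add]
    congr 1
    omega
  have h3 : ((a ^ (E - e) * b ^ e : ℕ) : ℤ) * h (e + m) - ((a ^ (E - (e + m)) * b ^ (e + m) : ℕ) : ℤ) * h e =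
      (a : ℤ) ^ (E - (e + m)) * (b : ℤ) ^ e * (c * (br a b m : ℤ)) := by
    rw [h2]
    push_cast
    have h4 : c * (br a b m : ℤ) = (a : ℤ) ^ m * h (e + m) - (b : ℤ) ^ m * h e := by
      rw [h1]
      ring
    rw [h4]
    ring
  rw [h3]
  have h5 : (br a b m : ℤ) ≠ 0 := by
    have := ORBK_br_pos a b m ha (by omega)
    exact_mod_cast this.ne'
  have h6 : (a : ℤ) ≠ 0 := by
    have : a ≠ 0 := by omega
    exact_mod_cast this
  have h7 : (b : ℤ) ≠ 0 := by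
    have : b ≠ 0 := by omega
    exact_mod_cast this
  exact mul_ne_zero (mul_ne_zero (pow_ne_zero _ h6) (pow_ne_zero _ h7)) (mul_ne_zero hc h5)

/-- a clique of exponents -/
theorem ORBK_key (a b : ℕ) (c : ℤ) (hAd : Ad a b c) (E : ℕ) (h : ℕ → ℤ) (hh : ∀ i < E, (a : ℤ) * h (i + 1) = b * h i + c)
    (k : ℕ) (x : Fin k → ℕ) (hx : ∀ i, x i ≤ E) (g : ℕ → ℕ × ℤ) (hg : g = fun e => (a ^ (E - e) * b ^ e, h e)) (hA : Adm (g ∘ x)) (hM : Many (g ∘ x)) :
    Clq (It a b c) (1 / 4 + 1 / 500000) x := by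
  classical
  obtain ⟨ha, hb, hc, hab, hac, hbc, hpar⟩ := hAd
  have hpos : ∀ e, 0 < (g e).1 := by
    intro e
    rw [hg]
    positivity
  obtain ⟨J, hJ, hJ2⟩ : ∃ J : Finset (Fin k), (1 / 4 + 1 / 500000 : ℝ) * k < #J ∧ ∀ N : ℕ, ∃ n ≥ N, {i : Fin k | (ev ((g ∘ x) i) n).Prime} = (J : Set (Fin k)) := by
    by_contra hcon
    push Not at hcon
    have h1 : ∀ J : Finset (Fin k), ∃ N : ℕ, (1 / 4 + 1 / 500000 : ℝ) * k < #J → ∀ n ≥ N, {i : Fin k | (ev ((g ∘ x) i) n).Prime} ≠ (J : Set (Fin k)) := by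
      intro J
      by_cases hJ : (1 / 4 + 1 / 500000 : ℝ) * k < #J
      · obtain ⟨N, hN⟩ := hcon J hJ
        exact ⟨N, fun _ => hN⟩
      · exact ⟨0, fun h => absurd h hJ⟩
    choose N hN using h1
    obtain ⟨n, hn, hn2⟩ := hM (∑ J, N J)
    obtain ⟨J, hJ⟩ : ∃ J : Finset (Fin k), J = Finset.univ.filter (fun i : Fin k => (ev ((g ∘ x) i) n).Prime) := ⟨_, rfl⟩
    have h2 : N J ≤ n := le_trans (single_le_sum (f := N) (fun _ _ => Nat.zero_le _) (mem_univ J)) hn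
    have h3 : hits (g ∘ x) n = #J := by
      rw [hits, hJ]
    rw [h3] at hn2
    refine hN J hn2 n h2 ?_
    rw [hJ]
    ext i
    simp
  refine ⟨J, hJ, fun i hi j hj hij => ?_⟩
  have hne : g (x i) ≠ g (x j) := by
    have h1 := ORBK_np a b E c h ha hb hc hh (x i) (x j) hij (hx j)
    intro h0
    rw [hg] at h0
    have e1 := congrArg Prod.fst h0
    have e2 := congrArg Prod.snd h0
    simp only at e1 e2
    apply h1
    rw [e1, e2]
    ring
  have hA2 : Adm ![g (x j), g (x i)] := by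
    intro p hp
    obtain ⟨m, hm⟩ := hA p hp
    refine ⟨m, fun t => ?_⟩
    fin_cases t
    · exact hm j
    · exact hm i
  have hP : ∀ N : ℕ, ∃ n ≥ N, (ev (g (x j)) n).Prime ∧ (ev (g (x i)) n).Prime := by
    intro N
    obtain ⟨n, hn, hn2⟩ := hJ2 N
    refine ⟨n, hn, ?_, ?_⟩
    · have : j ∈ {i : Fin k | (ev ((g ∘ x) i) n).Prime} := by
        rw [hn2]
        exact hj
      exact this
    · have : i ∈ {i : Fin k | (ev ((g ∘ x) i) n).Prime} := by
        rw [hn2]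
        exact hi
      exact this
  have h1 := PRT (g (x j)) (g (x i)) (hpos _) (hpos _) hne.symm hA2 hP
  rw [hg] at h1
  exact PRI a b E c h (x i) (x j) ha hb hab hh hij (hx j) h1

theorem ORBK (h : ADK_stmt) : ORBK_stmt := by
  classical
  intro hQ a b c hAd k η hk hη
  obtain ⟨C, δ, hC, hδ, -, hQ⟩ := hQ k hk
  obtain ⟨L, hL1, hL⟩ : ∃ L : ℕ, 1 ≤ L ∧ C * (L : ℝ) ^ (-δ) ≤ η := by
    have h1 : Filter.Tendsto (fun L : ℕ => C * (L : ℝ) ^ (-δ)) Filter.atTop (nhds (C * 0)) :=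
      ((tendsto_rpow_neg_atTop hδ).comp tendsto_natCast_atTop_atTop).const_mul C
    rw [mul_zero] at h1
    obtain ⟨L, h2, h3⟩ := ((h1.eventually (gt_mem_nhds hη)).and
      (Filter.eventually_ge_atTop 1)).exists
    exact ⟨L, h3, h2.le⟩
  refine ⟨(Nat.factorial k) ^ 2, L, Nat.one_le_iff_ne_zero.2 (pow_ne_zero _ (Nat.factorial_ne_zero k)), ?_⟩
  intro F hF hFL
  have hAd' := hAd
  obtain ⟨ha, hb, hc, hab, hac, hbc, hpar⟩ := hAd'
  obtain ⟨E, hE⟩ : ∃ E : ℕ, ∀ i, ∀ x ∈ F i, x ≤ E := by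
    refine ⟨∑ i, ∑ x ∈ F i, x, fun i x hx => ?_⟩
    have h1 : x ≤ ∑ x ∈ F i, x := single_le_sum (f := fun x : ℕ => x) (fun _ _ => Nat.zero_le _) hx
    have h2 : ∑ x ∈ F i, x ≤ ∑ i, ∑ x ∈ F i, x := single_le_sum (f := fun i => ∑ x ∈ F i, x) (fun _ _ => Nat.zero_le _) (mem_univ i)
    exact h1.trans h2
  obtain ⟨w, hw⟩ := ORB a b E c ha hb hab
  obtain ⟨g, hg⟩ : ∃ g : ℕ → ℕ × ℤ, g = fun e => (a ^ (E - e) * b ^ e, w e) := ⟨_, rfl⟩
  have hpos : ∀ e, 0 < (g e).1 := by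
    intro e
    rw [hg]
    positivity
  have hne : ∀ e e', e < e' → e' ≤ E → g e ≠ g e' := by
    intro e e' he he'
    have h1 := ORBK_np a b E c w ha hb hc hw e e' he he'
    intro h0
    rw [hg] at h0
    have e1 := congrArg Prod.fst h0
    have e2 := congrArg Prod.snd h0
    simp only at e1 e2
    apply h1
    rw [e1, e2]
    ring
  have hinj : ∀ e ≤ E, ∀ e' ≤ E, g e = g e' → e = e' := by
    intro e he e' he' h0
    by_contra h1
    rcases lt_or_gt_of_ne h1 with h2 | h2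
    · exact hne e e' h2 he' h0
    · exact hne e' e h2 he h0.symm
  have hcard : ∀ i, #((F i).image g) = #(F i) := fun i =>
    card_image_of_injOn fun e he e' he' => hinj e (hE i e he) e' (hE i e' he')
  have hmain := hQ (fun i => (F i).image g) L hL1 (fun i => by rw [hcard]; exact hFL i) (by
    intro i f hf
    obtain ⟨e, -, rfl⟩ := mem_image.1 hf
    exact hpos e)
  simp only [hcard] at hmain
  have hle : #{x ∈ Fintype.piFinset F | ¬ Clq (It a b c) (1 / 4 + 1 / 500000) x} ≤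
      #{f ∈ Fintype.piFinset (fun i => (F i).image g) | Adm f ∧ ¬ Many f} := by
    refine card_le_card_of_injOn (fun x => g ∘ x) ?_ ?_
    · intro x hx
      rw [mem_coe, mem_filter, Fintype.mem_piFinset] at hx
      rw [mem_coe, mem_filter, Fintype.mem_piFinset]
      have hA : Adm (g ∘ x) := by
        have h1 := h k a b E c x w hAd hw (fun i => hE i _ (hx.1 i)) (fun i => hF i _ (hx.1 i))
        rw [hg]
        exact h1
      refine ⟨fun i => mem_image_of_mem g (hx.1 i), hA, fun hM => hx.2 ?_⟩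
      exact ORBK_key a b c hAd E w hw k x (fun i => hE i _ (hx.1 i)) g hg hA hM
    · intro x hx y hy hxy
      rw [mem_coe, mem_filter, Fintype.mem_piFinset] at hx hy
      funext i
      exact hinj _ (hE i _ (hx.1 i)) _ (hE i _ (hy.1 i)) (congrFun hxy i)
  have hP : (0 : ℝ) ≤ ∏ i, (#(F i) : ℝ) := prod_nonneg fun i _ => Nat.cast_nonneg _
  calc (#{x ∈ Fintype.piFinset F | ¬ Clq (It a b c) (1 / 4 + 1 / 500000) x} : ℝ) ≤
      (#{f ∈ Fintype.piFinset (fun i => (F i).image g) | Adm f ∧ ¬ Many f} : ℝ) := Nat.cast_le.2 hle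
    _ ≤ C * (∏ i, (#(F i) : ℝ)) * (L : ℝ) ^ (-δ) := hmain
    _ = C * (L : ℝ) ^ (-δ) * ∏ i, (#(F i) : ℝ) := by ring
    _ ≤ η * ∏ i, (#(F i) : ℝ) := mul_le_mul_of_nonneg_right hL hP

end Pool.Agent.HF
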